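import Pool.Agent.Q220.SM.Law
import Pool.Agent.Q220.SM.Bal

/-!
# Nearest neighbour stirring: long cycles from every initial permutation
-/

set_option autoImplicit false

namespace Pool.Agent.Results.MP_6c3d62_pr.LongFromEveryStart

open Finset Equiv
open Pool.Agent.Y998.ST
open Q220.SM.Law (from_ from_nonneg from_sum from_mean from_NM NM)

/-- The number of cycles of `g`, fixed points included. -/
noncomputable def numCycles {V : Type} (g : Perm V) : ℕ :=
  Nat.card (Quotient (Perm.SameCycle.setoid g))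

/-- partial summation -/
theorem inv_eq (m n : ℕ) (hm : 0 < m) (hmn : m ≤ n) : (1 : ℝ) / m =
    ∑ K ∈ Finset.Ico 1 n, (if m ≤ K then 1 / ((K : ℝ) * (K + 1)) else 0) + 1 / n := by
  induction n with
  | zero => omega
  | succ n ih =>
    rcases Nat.lt_or_ge n m with h | h
    · have h1 : m = n + 1 := by omega
      have h2 : ∑ K ∈ Finset.Ico 1 (n + 1), (if m ≤ K then 1 / ((K : ℝ) * (K + 1)) else 0) = 0 := by
        refine Finset.sum_eq_zero fun K hK => if_neg ?_
        rw [Finset.mem_Ico] at hK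
        omega
      rw [h2, h1, zero_add]
    · have hn : 1 ≤ n := by omega
      rw [Finset.sum_Ico_succ_top hn, if_pos h, ih h]
      have hnR : (0 : ℝ) < n := by exact_mod_cast hn
      push_cast
      have : (n : ℝ) + 1 ≠ 0 := by positivity
      field_simp
      ring

/-- a convergent series -/
theorem ser (a : ℝ) (ha : a ≤ 1 / 2) : ∃ Z : ℝ, 0 ≤ Z ∧ ∀ n : ℕ,
    ∑ K ∈ Finset.Ico 1 n, (K : ℝ) ^ a * (1 / ((K : ℝ) * (K + 1))) ≤ Z := by
  have hs : Summable fun K : ℕ => 1 / (K : ℝ) ^ ((3 : ℝ) / 2) :=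
    Real.summable_one_div_nat_rpow.2 (by norm_num)
  refine ⟨∑' K : ℕ, 1 / (K : ℝ) ^ ((3 : ℝ) / 2), tsum_nonneg fun K => by positivity, fun n => ?_⟩
  refine le_trans (Finset.sum_le_sum (fun K hK => ?_))
    (hs.sum_le_tsum (Finset.Ico 1 n) (fun K _ => by positivity))
  rw [Finset.mem_Ico] at hK
  have hK1 : (1 : ℝ) ≤ K := by exact_mod_cast hK.1
  have hK0 : (0 : ℝ) < K := by linarith
  have h1 : (K : ℝ) ^ a ≤ (K : ℝ) ^ ((1 : ℝ) / 2) := Real.rpow_le_rpow_of_exponent_le hK1 ha
  have h2 : 1 / ((K : ℝ) * (K + 1)) ≤ 1 / ((K : ℝ) * K) :=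
    one_div_le_one_div_of_le (by positivity) (by nlinarith)
  calc (K : ℝ) ^ a * (1 / ((K : ℝ) * (K + 1))) ≤ (K : ℝ) ^ ((1 : ℝ) / 2) * (1 / ((K : ℝ) * K)) :=
        mul_le_mul h1 h2 (by positivity) (by positivity)
    _ = 1 / (K : ℝ) ^ ((3 : ℝ) / 2) := by
        have e1 : (K : ℝ) ^ ((3 : ℝ) / 2) * (K : ℝ) ^ ((1 : ℝ) / 2) = K * K := by
          rw [← Real.rpow_add hK0]
          norm_num
          ring
        have h3 : (K : ℝ) ^ ((3 : ℝ) / 2) ≠ 0 := (Real.rpow_pos_of_pos hK0 _).ne'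
        rw [← e1]
        have h4 : (K : ℝ) ^ ((1 : ℝ) / 2) ≠ 0 := (Real.rpow_pos_of_pos hK0 _).ne'
        field_simp

open Classical in
/-- Nearest neighbour random stirring on the torus `(ℤ / L)^d`, `d ≥ 1`, started at an arbitrary
permutation `σ` (at time `t` it is `g * σ` with `g` distributed as stirring started at the
identity). There is `C`, depending only on `d`, such that for all `L ≥ 3`, all `t > 0` and all `σ`,
with `T = min(t, L²)^(d/2)`:

(1) the cycle of a given point has at most `K` points with probability at most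
`C (K / T)^(1/(d+1))`; in particular for `t ≥ L²` it has at most `ε L^d` points with probability at
most `C ε^(1/(d+1))`;

(2) the mean number of cycles is at most `C L^d T^(-1/(d+1)) + 1`. -/
theorem result (d : ℕ) (hd : 1 ≤ d) : ∃ C : ℝ, 0 < C ∧ ∀ (L : ℕ) [NeZero L], 3 ≤ L →
    ∀ t : ℝ, 0 < t → ∀ σ : Perm (Fin d → ZMod L),
      (∀ (v : Fin d → ZMod L) (K : ℕ),
        stirExp (nnRate d L) t (fun g => if cycleLen (g * σ) v ≤ K then 1 else 0) ≤
          C * ((K : ℝ) / min t ((L : ℝ) ^ 2) ^ ((d : ℝ) / 2)) ^ (1 / ((d : ℝ) + 1))) ∧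
      stirExp (nnRate d L) t (fun g => (numCycles (g * σ) : ℝ)) ≤
        C * (L : ℝ) ^ d * (1 / min t ((L : ℝ) ^ 2) ^ ((d : ℝ) / 2)) ^ (1 / ((d : ℝ) + 1)) + 1 := by
  obtain ⟨C₀, hC₀, hdist⟩ := Pool.Agent.Y998.LQ.t_dist d hd
  have hdR : (1 : ℝ) ≤ d := by exact_mod_cast hd
  obtain ⟨a, ha⟩ : ∃ a : ℝ, a = 1 / ((d : ℝ) + 1) := ⟨_, rfl⟩
  have ha0 : 0 < a := by rw [ha]; positivity
  have ha2 : a ≤ 1 / 2 := by
    rw [ha]
    exact one_div_le_one_div_of_le (by norm_num) (by linarith)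
  obtain ⟨Z, hZ, hser⟩ := ser a ha2
  obtain ⟨C, hC⟩ : ∃ C : ℝ, C = 4 + 8 * C₀ * d := ⟨_, rfl⟩
  have hC0 : 0 < C := by rw [hC]; positivity
  refine ⟨C * (1 + Z), by positivity, fun L _ hL t ht σ => ?_⟩
  rw [← ha]
  have hLpos : (0 : ℝ) < L := by exact_mod_cast Nat.pos_of_ne_zero (NeZero.ne L)
  obtain ⟨T, hT⟩ : ∃ T : ℝ, T = min t ((L : ℝ) ^ 2) ^ ((d : ℝ) / 2) := ⟨_, rfl⟩
  have hT0 : 0 < T := by
    rw [hT]
    exact Real.rpow_pos_of_pos (lt_min ht (by positivity)) _
  rw [← hT]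
  have hJ0 : ∀ x y : Fin d → ZMod L, 0 ≤ nnRate d L x y := nn_nonneg
  have key : ∀ (v : Fin d → ZMod L) (K : ℕ),
      stirExp (nnRate d L) t (fun g => if cycleLen (g * σ) v ≤ K then 1 else 0) ≤
        C * ((K : ℝ) / T) ^ a := by
    intro v K
    have h1 := Q220.SM.Law.typ d hd C₀ hC₀ L hL t ht (from_ (nnRate d L) t σ)
      (from_nonneg hJ0 ht.le σ) (from_sum _ _ _) (fun x y => by
        rw [from_NM]
        exact hdist L hL t ht x y) v K
    rw [← hT, ← ha, ← hC] at h1
    have h2 := from_mean (nnRate d L) t σ (fun g => if cycleLen g v ≤ K then 1 else 0)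
    rw [← h2]
    convert h1 using 5
  refine ⟨fun v K => ?_, ?_⟩
  · refine (key v K).trans ?_
    have h1 : (0 : ℝ) ≤ ((K : ℝ) / T) ^ a := by positivity
    nlinarith [mul_nonneg (mul_nonneg hC0.le hZ) h1]
  · obtain ⟨n, hn⟩ : ∃ n : ℕ, n = Fintype.card (Fin d → ZMod L) := ⟨_, rfl⟩
    have hnR : (n : ℝ) = (L : ℝ) ^ d := by
      rw [hn, Fintype.card_fun, ZMod.card, Fintype.card_fin]; push_cast; rfl
    have hnpos : (0 : ℝ) < n := by rw [hnR]; positivity
    have hlen : ∀ (g : Perm (Fin d → ZMod L)) v, 0 < cycleLen g v ∧ cycleLen g v ≤ n := by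
      intro g v
      refine ⟨Q220.SM.len_pos g v, ?_⟩
      unfold cycleLen
      rw [hn, Nat.card_eq_fintype_card]
      exact Fintype.card_subtype_le _
    have h1 : ∀ g : Perm (Fin d → ZMod L), (numCycles (g * σ) : ℝ) =
        ∑ v, (∑ K ∈ Finset.Ico 1 n, (if cycleLen (g * σ) v ≤ K then 1 else 0) *
          (1 / ((K : ℝ) * (K + 1))) + 1 / n) := by
      intro g
      have h2 : (numCycles (g * σ) : ℝ) = ∑ v, 1 / (cycleLen (g * σ) v : ℝ) :=
        Q220.SM.num_eq (g * σ)
      rw [h2]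
      refine Finset.sum_congr rfl fun v _ => ?_
      rw [inv_eq _ n (hlen _ v).1 (hlen _ v).2]
      congr 1
      refine Finset.sum_congr rfl fun K _ => ?_
      split_ifs <;> simp
    have h3 : stirExp (nnRate d L) t (fun g => (numCycles (g * σ) : ℝ)) =
        ∑ v : Fin d → ZMod L, (∑ K ∈ Finset.Ico 1 n,
          stirExp (nnRate d L) t (fun g => if cycleLen (g * σ) v ≤ K then 1 else 0) *
            (1 / ((K : ℝ) * (K + 1))) + 1 / n) := by
      simp only [h1]
      rw [← exp_sum]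
      refine Finset.sum_congr rfl fun v _ => ?_
      have hlaw : ∑ g : Perm (Fin d → ZMod L), stirLaw (nnRate d L) t g = 1 :=
        Pool.Agent.Y998.CN.law_sum _ _
      unfold stirExp
      simp only [mul_add, Finset.mul_sum, Finset.sum_add_distrib]
      rw [← Finset.sum_mul, hlaw, one_mul]
      congr 1
      rw [Finset.sum_comm]
      refine Finset.sum_congr rfl fun K _ => ?_
      rw [Finset.sum_mul]
      refine Finset.sum_congr rfl fun g _ => ?_
      ring
    rw [h3]
    have h4 : ∀ v : Fin d → ZMod L, (∑ K ∈ Finset.Ico 1 n,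
          stirExp (nnRate d L) t (fun g => if cycleLen (g * σ) v ≤ K then 1 else 0) *
            (1 / ((K : ℝ) * (K + 1))) + 1 / n) ≤ C * (1 / T) ^ a * Z + 1 / n := by
      intro v
      refine add_le_add_left ?_ _
      calc _ ≤ ∑ K ∈ Finset.Ico 1 n, C * (1 / T) ^ a *
            ((K : ℝ) ^ a * (1 / ((K : ℝ) * (K + 1)))) := by
            refine Finset.sum_le_sum fun K _ => ?_
            have h5 := key v K
            have h6 : C * ((K : ℝ) / T) ^ a = C * (1 / T) ^ a * (K : ℝ) ^ a := by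
              rw [Real.div_rpow (by positivity) hT0.le, Real.div_rpow (by norm_num) hT0.le,
                Real.one_rpow]
              ring
            rw [h6] at h5
            refine (mul_le_mul_of_nonneg_right h5 (by positivity)).trans (le_of_eq ?_)
            ring
        _ ≤ _ := by
            rw [← Finset.mul_sum]
            exact mul_le_mul_of_nonneg_left (hser n) (by positivity)
    refine (Finset.sum_le_sum fun v _ => h4 v).trans ?_
    rw [Finset.sum_const, Finset.card_univ, ← hn, nsmul_eq_mul, ← hnR]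
    have h7 : (n : ℝ) * (C * (1 / T) ^ a * Z + 1 / n) = C * Z * n * (1 / T) ^ a + 1 := by
      field_simp
    rw [h7]
    have h8 : 0 ≤ C * n * (1 / T) ^ a := by positivity
    nlinarith

end Pool.Agent.Results.MP_6c3d62_pr.LongFromEveryStart
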