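import Pool.Agent.W805.LR.Cons

/-!
# Long-range random stirring with a weight `θ` per cycle

Macroscopic cycles in every dimension and for every weight `θ > 0`; for `θ = 2` this is long-range
order of the spin `1/2` quantum Heisenberg ferromagnet.
-/

set_option autoImplicit false

namespace Pool.Agent.Results.MP_6c3d62_pr.LoopWeightedLongRange

open Finset Equiv

/-- The sum over all unordered pairs of the rates. -/
noncomputable def totalRate {V : Type} [Fintype V] (J : V → V → ℝ) : ℝ := ∑ x, ∑ y, J x y / 2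

/-- The probability that random stirring started at the identity, with an independent Poisson clock
of rate `J x y` for every unordered pair `{x, y}` (`J` symmetric; in general `(J x y + J y x) / 2`),
is at the permutation `g` at time `t`: there are `n` rings up to time `t` with probability
`exp (-R t) (R t)^n / n!`, `R` the total rate, and each ring is a ring of the ordered pair `(x, y)`
with probability `J x y / (2 R)`. -/
noncomputable def stirLaw {V : Type} [Fintype V] [DecidableEq V] (J : V → V → ℝ) (t : ℝ)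
    (g : Perm V) : ℝ :=
  ∑' n : ℕ, Real.exp (-(t * totalRate J)) * t ^ n / (n.factorial : ℝ) *
    ∑ w : Fin n → V × V, (∏ i, J (w i).1 (w i).2 / 2) *
      (if (List.ofFn fun i => swap (w i).1 (w i).2).prod = g then 1 else 0)

/-- The number of cycles of `g`, fixed points included. -/
noncomputable def numCycles {V : Type} (g : Perm V) : ℕ :=
  Nat.card (Quotient (Perm.SameCycle.setoid g))

/-- Length of the cycle of `g` through `v`. -/
noncomputable def cycleLen {V : Type} [Fintype V] (g : Perm V) (v : V) : ℕ :=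
  Nat.card {w : V // g.SameCycle v w}

/-- The mean of `F` under random stirring at time `t` with the additional weight
`θ ^ (number of cycles)`. For `θ = 1` it is the expectation of `F` under random stirring. -/
noncomputable def wMean {V : Type} [Fintype V] [DecidableEq V] (J : V → V → ℝ) (t θ : ℝ)
    (F : Perm V → ℝ) : ℝ :=
  (∑ g, stirLaw J t g * θ ^ numCycles g * F g) / ∑ g, stirLaw J t g * θ ^ numCycles g

/-- The fraction of the points that lie in cycles with fewer than `K` points. -/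
noncomputable def shortFrac {V : Type} [Fintype V] (K : ℝ) (g : Perm V) : ℝ :=
  (Nat.card {v : V // (cycleLen g v : ℝ) < K} : ℝ) / Fintype.card V

/-- `g` has at least `k` cycles with at least `s` points each. -/
def ManyLong {V : Type} [Fintype V] (k : ℕ) (s : ℝ) (g : Perm V) : Prop :=
  ∃ f : Fin k → V, (∀ a b, a ≠ b → ¬ g.SameCycle (f a) (f b)) ∧ ∀ a, s ≤ (cycleLen g (f a) : ℝ)

/-- Sup-distance in the box `{0, ..., L - 1}^d`. It is at least the distance on the torus. -/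
def boxDist {d L : ℕ} (x y : Fin d → ZMod L) : ℕ :=
  univ.sup fun a => (((x a).val : ℤ) - (y a).val).natAbs

/-- Symmetric rates that are at least `lam * distance ^ (-(d + σ))`; otherwise arbitrary. Since
`boxDist` is at least the distance on the torus, the condition with the latter is stronger. -/
def Rates (d L : ℕ) (σ lam : ℝ) (J : (Fin d → ZMod L) → (Fin d → ZMod L) → ℝ) : Prop :=
  (∀ x y, J x y = J y x) ∧ (∀ x, J x x = 0) ∧
    ∀ x y, x ≠ y → lam * (boxDist x y : ℝ) ^ (-((d : ℝ) + σ)) ≤ J x y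

section quantum

variable {V : Type} [Fintype V] [DecidableEq V]

/-- First spin component at `x`: half the first Pauli matrix. -/
noncomputable def spin1 (x : V) : Matrix (V → Bool) (V → Bool) ℂ :=
  fun s s' => if s' = Function.update s x (!(s x)) then 1 / 2 else 0

/-- Second spin component at `x`: half the second Pauli matrix. -/
noncomputable def spin2 (x : V) : Matrix (V → Bool) (V → Bool) ℂ :=
  fun s s' => if s' = Function.update s x (!(s x)) then
    (if s x then -Complex.I / 2 else Complex.I / 2) else 0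

/-- Third spin component at `x`: half the third Pauli matrix. -/
noncomputable def spin3 (x : V) : Matrix (V → Bool) (V → Bool) ℂ :=
  Matrix.diagonal fun s => if s x then 1 / 2 else -1 / 2

/-- The Hamiltonian of the spin `1/2` Heisenberg ferromagnet,
`H = - 2 ∑_{unordered pairs} J x y (S_x · S_y)`; the sum below is over ordered pairs. -/
noncomputable def heis (J : V → V → ℝ) : Matrix (V → Bool) (V → Bool) ℂ :=
  -∑ x, ∑ y, (J x y : ℂ) • (spin1 x * spin1 y + spin2 x * spin2 y + spin3 x * spin3 y)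

/-- `exp (-β H)`. -/
noncomputable def gibbsOp (J : V → V → ℝ) (β : ℝ) : Matrix (V → Bool) (V → Bool) ℂ :=
  NormedSpace.exp ((-β : ℂ) • heis J)

/-- The thermal mean `tr (A exp (-β H)) / tr exp (-β H)`. -/
noncomputable def thermal (J : V → V → ℝ) (β : ℝ) (A : Matrix (V → Bool) (V → Bool) ℂ) : ℂ :=
  (A * gibbsOp J β).trace / (gibbsOp J β).trace

end quantum

section bridge

variable {V : Type} [Fintype V] [DecidableEq V]

open Pool.Agent.W805.LR (stirMass cyc len cnt manyCyc)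

theorem len_eq (g : Perm V) (v : V) : len g v = (cycleLen g v : ℝ) := by
  classical
  unfold len cycleLen
  rw [Pool.Agent.W805.LR.cnt_eq, Nat.card_eq_fintype_card, Fintype.card_subtype, Finset.sum_boole]

theorem cyc_eq (g : Perm V) : cyc g = numCycles g := rfl

theorem law_eq (J : V → V → ℝ) (t : ℝ) (g : Perm V) :
    stirLaw J t g = Real.exp (-(t * totalRate J)) * stirMass J t g :=
  Pool.Agent.W805.LR.series_eq J t g

theorem mean_eq (J : V → V → ℝ) (t θ : ℝ) (F : Perm V → ℝ) :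
    wMean J t θ F = (∑ g, stirMass J t g * θ ^ cyc g * F g) / ∑ g, stirMass J t g * θ ^ cyc g := by
  unfold wMean
  simp only [law_eq, cyc_eq, mul_assoc]
  rw [← Finset.mul_sum, ← Finset.mul_sum, mul_div_mul_left _ _ (Real.exp_pos _).ne']

end bridge

section bridge2

variable {V : Type} [Fintype V] [DecidableEq V]

open Pool.Agent.W805.LR (stirMass cyc len cnt manyCyc)

theorem Z_pos {J : V → V → ℝ} (hJ : ∀ x y, 0 ≤ J x y) {t : ℝ} (ht : 0 ≤ t) {θ : ℝ}
    (hθ : 0 < θ) : 0 < ∑ g, stirMass J t g * θ ^ cyc g := by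
  have hm : ∀ g, 0 ≤ stirMass J t g := Pool.Agent.W29.LR.CV.stirMass_nonneg J hJ t ht
  have h1 : 0 ≤ ∑ g, stirMass J t g * θ ^ cyc g := Finset.sum_nonneg fun g _ =>
    mul_nonneg (hm g) (by positivity)
  refine lt_of_le_of_ne h1 fun h => ?_
  have h2 : ∀ g ∈ (univ : Finset (Perm V)), stirMass J t g * θ ^ cyc g = 0 :=
    (Finset.sum_eq_zero_iff_of_nonneg fun g _ => mul_nonneg (hm g) (by positivity)).1 h.symm
  have h3 : ∀ g, stirMass J t g = 0 := by
    intro g
    have := h2 g (Finset.mem_univ g)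
    rcases mul_eq_zero.1 this with h | h
    · exact h
    · exact absurd h (by positivity)
  have h4 := Pool.Agent.W805.LR.sum_mass J t
  simp only [h3, Finset.sum_const_zero] at h4
  exact absurd h4.symm (Real.exp_pos _).ne'

theorem short_eq (K : ℝ) (g : Perm V) :
    shortFrac K g = (cnt fun v => len g v < K) / Fintype.card V := by
  classical
  unfold shortFrac
  rw [Pool.Agent.W805.LR.cnt_eq, Finset.sum_boole, Nat.card_eq_fintype_card, Fintype.card_subtype]
  simp only [len_eq]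

theorem many_iff (k : ℕ) (s : ℝ) (g : Perm V) : ManyLong k s g ↔ manyCyc g k s := by
  unfold ManyLong manyCyc
  simp only [len_eq]

end bridge2

theorem rates_iff {d L : ℕ} {σ lam : ℝ} {J : (Fin d → ZMod L) → (Fin d → ZMod L) → ℝ}
    (h : Rates d L σ lam J) : Pool.Agent.W805.LR.IsRate2 d L σ lam J := h

theorem card_V (d L : ℕ) [NeZero L] : (Fintype.card (Fin d → ZMod L) : ℝ) = (L : ℝ) ^ d :=
  Pool.Agent.W805.LR.card_torus d L

open Pool.Agent.W805.LR (stirMass cyc len cnt manyCyc) in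
/-- the first part -/
theorem part_short (d : ℕ) (hd : 1 ≤ d) (σ lam θ : ℝ) (hσ : 0 < σ) (hσd : σ < d)
    (hlam : 0 < lam) (hθ : 0 < θ) (η : ℝ) (hη : 0 < η) :
    ∃ t₁ > 0, ∃ ε > 0, ∀ t ≥ t₁, ∃ L₀ : ℕ, ∀ (L : ℕ) [NeZero L], L₀ ≤ L →
      ∀ J : (Fin d → ZMod L) → (Fin d → ZMod L) → ℝ, Rates d L σ lam J →
        wMean J t θ (shortFrac (ε * (L : ℝ) ^ d)) ≤ η := by
  obtain ⟨t1, ht1, ε, hε, h⟩ := Pool.Agent.W805.LR.main2_thm d σ lam θ η hd hσ hσd hlam hθ hη
  refine ⟨t1, ht1, ε, hε, fun t ht => ?_⟩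
  obtain ⟨L0, hL0⟩ := h t ht
  refine ⟨L0, fun L _ hL J hJ => ?_⟩
  have h1 := hL0 L hL J (rates_iff hJ)
  have ht0 : 0 ≤ t := (lt_of_lt_of_le ht1 ht).le
  have hZ := Z_pos ((rates_iff hJ).nonneg hlam) ht0 hθ
  have hLpos : (0 : ℝ) < L := by exact_mod_cast Nat.pos_of_ne_zero (NeZero.ne L)
  have hN : (0 : ℝ) < (L : ℝ) ^ d := by positivity
  rw [mean_eq, div_le_iff₀ hZ]
  have h2 : ∑ g, stirMass J t g * θ ^ cyc g * shortFrac (ε * (L : ℝ) ^ d) g =
      (∑ g, stirMass J t g * θ ^ cyc g * (cnt fun v => len g v < ε * (L : ℝ) ^ d)) /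
        (L : ℝ) ^ d := by
    rw [Finset.sum_div]
    refine Finset.sum_congr rfl fun g _ => ?_
    rw [short_eq, card_V]
    ring
  rw [h2, div_le_iff₀ hN]
  linarith

open Pool.Agent.W805.LR (stirMass cyc len cnt manyCyc) in
open Classical in
/-- the second part -/
theorem part_many (d : ℕ) (hd : 1 ≤ d) (σ lam θ : ℝ) (hσ : 0 < σ) (hσd : σ < d)
    (hlam : 0 < lam) (hθ : 0 < θ) :
    ∃ t₁ > 0, ∀ k : ℕ, ∃ ε > 0, ∃ c > 0, ∀ t ≥ t₁, ∃ L₀ : ℕ, ∀ (L : ℕ) [NeZero L], L₀ ≤ L →
      ∀ J : (Fin d → ZMod L) → (Fin d → ZMod L) → ℝ, Rates d L σ lam J →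
        c ≤ wMean J t θ (fun g => if ManyLong k (ε * (L : ℝ) ^ d) g then 1 else 0) := by
  obtain ⟨t1, ht1, h⟩ := Pool.Agent.W805.LR.many_main d σ lam θ hd hσ hσd hlam hθ
  refine ⟨t1, ht1, fun k => ?_⟩
  obtain ⟨ε, hε, c, hc, h⟩ := h k
  refine ⟨ε, hε, c, hc, fun t ht => ?_⟩
  obtain ⟨L0, hL0⟩ := h t ht
  refine ⟨L0, fun L _ hL J hJ => ?_⟩
  have h1 := hL0 L hL J (rates_iff hJ)
  have ht0 : 0 ≤ t := (lt_of_lt_of_le ht1 ht).le
  have hnn := (rates_iff hJ).nonneg hlam
  have hZ := Z_pos hnn ht0 hθ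
  rw [mean_eq, le_div_iff₀ hZ]
  refine h1.trans (Finset.sum_le_sum fun g _ => ?_)
  refine mul_le_mul_of_nonneg_left ?_
    (mul_nonneg (Pool.Agent.W29.LR.CV.stirMass_nonneg J hnn t ht0 g) (by positivity))
  by_cases h2 : manyCyc g (k + 1) (ε * (L : ℝ) ^ d)
  · have h3 : ManyLong k (ε * (L : ℝ) ^ d) g := by
      rw [many_iff]
      obtain ⟨f, hf1, hf2⟩ := h2
      exact ⟨fun a => f a.castSucc, fun a b hab => hf1 _ _ (fun e => hab (Fin.castSucc_injective _ e)),
        fun a => hf2 _⟩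
    rw [if_pos h2, if_pos h3]
  · rw [if_neg h2]
    split_ifs <;> norm_num

open Pool.Agent.W805.LR (stirMass cyc len cnt manyCyc) in
/-- the third part -/
theorem part_spin (d : ℕ) (hd : 1 ≤ d) (σ lam : ℝ) (hσ : 0 < σ) (hσd : σ < d) (hlam : 0 < lam) :
    ∃ β₁ > 0, ∃ m > 0, ∀ β ≥ β₁, ∃ L₀ : ℕ, ∀ (L : ℕ) [NeZero L], L₀ ≤ L →
      ∀ J : (Fin d → ZMod L) → (Fin d → ZMod L) → ℝ, Rates d L σ lam J →
        m * (L : ℝ) ^ (2 * d) ≤ (thermal J β ((∑ x, spin3 x) ^ 2)).re := by
  obtain ⟨t1, ht1, ε, hε, h⟩ :=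
    Pool.Agent.W805.LR.main2_thm d σ lam 2 (1 / 2) hd hσ hσd hlam (by norm_num) (by norm_num)
  refine ⟨t1, ht1, ε / 8, by positivity, fun t ht => ?_⟩
  obtain ⟨L0, hL0⟩ := h t ht
  refine ⟨L0, fun L _ hL J hJ => ?_⟩
  have h1 := hL0 L hL J (rates_iff hJ)
  have ht0 : 0 ≤ t := (lt_of_lt_of_le ht1 ht).le
  have hnn := (rates_iff hJ).nonneg hlam
  have hm := Pool.Agent.W29.LR.CV.stirMass_nonneg J hnn t ht0
  have hZ := Z_pos hnn ht0 (θ := 2) (by norm_num)
  have hLpos : (0 : ℝ) < L := by exact_mod_cast Nat.pos_of_ne_zero (NeZero.ne L)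
  have hN : (0 : ℝ) < (L : ℝ) ^ d := by positivity
  obtain ⟨C, hC, e1, e2⟩ := Pool.Agent.W762.LR.QS.main (Fin d → ZMod L) J t hJ.2.1
  have e3 : thermal J t ((∑ x, spin3 x) ^ 2) =
      (((∑ g, stirMass J t g * 2 ^ cyc g * ((∑ x, len g x) / 4)) /
        ∑ g, stirMass J t g * 2 ^ cyc g : ℝ) : ℂ) := by
    have e1' : (gibbsOp J t).trace = ((C * ∑ g, stirMass J t g * 2 ^ cyc g : ℝ) : ℂ) := e1
    have e2' : ((∑ x, spin3 x) ^ 2 * gibbsOp J t).trace =
      ((C * ∑ g, stirMass J t g * 2 ^ cyc g * ((∑ x, len g x) / 4) : ℝ) : ℂ) := e2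
    unfold thermal
    rw [e1', e2', ← Complex.ofReal_div, mul_div_mul_left _ _ hC.ne']
  rw [e3, Complex.ofReal_re, le_div_iff₀ hZ]
  -- the sum of the lengths
  have h3 : ∀ g : Perm (Fin d → ZMod L), ε * (L : ℝ) ^ d *
      ((L : ℝ) ^ d - cnt fun v => len g v < ε * (L : ℝ) ^ d) ≤ ∑ x, len g x := by
    intro g
    classical
    have h4 : (L : ℝ) ^ d - (cnt fun v => len g v < ε * (L : ℝ) ^ d) =
        ∑ v, if len g v < ε * (L : ℝ) ^ d then (0 : ℝ) else 1 := by
      rw [Pool.Agent.W805.LR.cnt_eq, ← card_V d L, ← Finset.card_univ, Finset.cast_card,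
        ← Finset.sum_sub_distrib]
      refine Finset.sum_congr rfl fun v _ => ?_
      split_ifs <;> norm_num
    rw [h4, Finset.mul_sum]
    refine Finset.sum_le_sum fun v _ => ?_
    split_ifs with h5
    · rw [mul_zero]
      exact Pool.Agent.W805.LR.cnt_nonneg _
    · rw [mul_one]
      exact not_lt.1 h5
  have h6 : ∑ g, stirMass J t g * 2 ^ cyc g * (ε * (L : ℝ) ^ d *
      ((L : ℝ) ^ d - cnt fun v => len g v < ε * (L : ℝ) ^ d) / 4) ≤
      ∑ g, stirMass J t g * 2 ^ cyc g * ((∑ x, len g x) / 4) := by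
    refine Finset.sum_le_sum fun g _ => ?_
    refine mul_le_mul_of_nonneg_left ?_ (mul_nonneg (hm g) (by positivity))
    have := h3 g
    linarith
  refine le_trans ?_ h6
  have h7 : ∑ g, stirMass J t g * 2 ^ cyc g * (ε * (L : ℝ) ^ d *
      ((L : ℝ) ^ d - cnt fun v => len g v < ε * (L : ℝ) ^ d) / 4) =
      ε * (L : ℝ) ^ d / 4 * ((L : ℝ) ^ d * (∑ g, stirMass J t g * 2 ^ cyc g) -
        ∑ g, stirMass J t g * 2 ^ cyc g * (cnt fun v => len g v < ε * (L : ℝ) ^ d)) := by
    rw [Finset.mul_sum, ← Finset.sum_sub_distrib, Finset.mul_sum]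
    refine Finset.sum_congr rfl fun g _ => ?_
    ring
  rw [h7]
  have h8 : (L : ℝ) ^ d / 2 * (∑ g, stirMass J t g * 2 ^ cyc g) ≤
      (L : ℝ) ^ d * (∑ g, stirMass J t g * 2 ^ cyc g) -
        ∑ g, stirMass J t g * 2 ^ cyc g * (cnt fun v => len g v < ε * (L : ℝ) ^ d) := by
    linarith
  have h9 := mul_le_mul_of_nonneg_left h8 (show 0 ≤ ε * (L : ℝ) ^ d / 4 by positivity)
  refine le_trans (le_of_eq ?_) h9
  rw [two_mul, pow_add]
  ring

open Classical in
/-- Random stirring on `(ℤ / L)^d`, any `d ≥ 1`, with arbitrary symmetric rates that are at least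
`lam * distance ^ (-(d + σ))`, `0 < σ < d`, and with an arbitrary weight `θ > 0` per cycle.

* At large times all but a small fraction of the points are in macroscopic cycles, uniformly in
  `L` and in the rates.
* At large times there are `k` macroscopic cycles with probability bounded below, for every `k`.
* For the spin `1/2` quantum Heisenberg ferromagnet with couplings `J` (this is `θ = 2`) the mean
  square of the magnetisation is at least `m * L ^ (2 d)` at all large inverse temperatures. -/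
theorem result (d : ℕ) (hd : 1 ≤ d) (σ lam : ℝ) (hσ : 0 < σ) (hσd : σ < d) (hlam : 0 < lam) :
    (∀ θ : ℝ, 0 < θ →
      (∀ η : ℝ, 0 < η → ∃ t₁ > 0, ∃ ε > 0, ∀ t ≥ t₁, ∃ L₀ : ℕ, ∀ (L : ℕ) [NeZero L], L₀ ≤ L →
        ∀ J : (Fin d → ZMod L) → (Fin d → ZMod L) → ℝ, Rates d L σ lam J →
          wMean J t θ (shortFrac (ε * (L : ℝ) ^ d)) ≤ η) ∧
      (∃ t₁ > 0, ∀ k : ℕ, ∃ ε > 0, ∃ c > 0, ∀ t ≥ t₁, ∃ L₀ : ℕ, ∀ (L : ℕ) [NeZero L], L₀ ≤ L →
        ∀ J : (Fin d → ZMod L) → (Fin d → ZMod L) → ℝ, Rates d L σ lam J →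
          c ≤ wMean J t θ (fun g => if ManyLong k (ε * (L : ℝ) ^ d) g then 1 else 0))) ∧
    (∃ β₁ > 0, ∃ m > 0, ∀ β ≥ β₁, ∃ L₀ : ℕ, ∀ (L : ℕ) [NeZero L], L₀ ≤ L →
      ∀ J : (Fin d → ZMod L) → (Fin d → ZMod L) → ℝ, Rates d L σ lam J →
        m * (L : ℝ) ^ (2 * d) ≤ (thermal J β ((∑ x, spin3 x) ^ 2)).re) :=
  ⟨fun θ hθ => ⟨part_short d hd σ lam θ hσ hσd hlam hθ, part_many d hd σ lam θ hσ hσd hlam hθ⟩,
    part_spin d hd σ lam hσ hσd hlam⟩

end Pool.Agent.Results.MP_6c3d62_pr.LoopWeightedLongRange
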