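import Pool.Agent.Y998.CN.Tor
import Pool.Agent.Y664.CN.TR
import Pool.Agent.Y641.CN.PB
import Pool.Agent.Y154.CN.PR
import Pool.Agent.Y950.CN.PATH
import Pool.Agent.Y259.CN.CG
import Pool.Agent.Y375.CN.EN

/-!
# Nearest neighbour stirring on the torus: the number of cycles

Up to logarithms the number of cycles per point at time `t` is `t ^ (-d/2)`; the upper bound holds
with any weight `θ > 0` per cycle.
-/

set_option autoImplicit false

namespace Pool.Agent.Results.MP_6c3d62_pr.NumberOfCycles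

open Finset Equiv
open Pool.Agent.Y998.ST

/-- The number of cycles of `g`, fixed points included. -/
noncomputable def numCycles {V : Type} (g : Perm V) : ℕ :=
  Nat.card (Quotient (Perm.SameCycle.setoid g))

/-- The mean of `F` under random stirring with rates `J` at time `t` with the additional weight
`θ ^ (number of cycles)`. For `θ = 1` it is the expectation of `F` under random stirring. -/
noncomputable def wMean {V : Type} [Fintype V] [DecidableEq V] (J : V → V → ℝ) (t θ : ℝ)
    (F : Perm V → ℝ) : ℝ :=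
  (∑ g, stirLaw J t g * θ ^ numCycles g * F g) / ∑ g, stirLaw J t g * θ ^ numCycles g

open Classical in
/-- Nearest neighbour random stirring on the torus `(ℤ / L)^d`, `d ≥ 1`, started at the identity,
and any weight `θ > 0` per cycle (`θ = 1`: random stirring itself).  There are constants depending
only on `d` and `θ` such that for all `L ≥ 3` and all times `2 ≤ t ≤ L²`:

* the mean number of cycles is at most `C L^d (log t / t)^(d/2) log t`, also if arbitrary further
  nonnegative rates are added to the nearest neighbour rates;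
* for `θ = 1` it is at least `c L^d t^(-d/2)`;
* the cycle of a given point has at most `K` points with probability at most
  `C K (log t / t)^(d/2) log t`, also if translation invariant rates are added. -/
theorem result (d : ℕ) (hd : 1 ≤ d) (θ : ℝ) (hθ : 0 < θ) : ∃ C c : ℝ, 0 < C ∧ 0 < c ∧
    ∀ (L : ℕ) [NeZero L], 3 ≤ L → ∀ t : ℝ, 2 ≤ t → t ≤ (L : ℝ) ^ 2 →
      (∀ J : (Fin d → ZMod L) → (Fin d → ZMod L) → ℝ, (∀ x y, nnRate d L x y ≤ J x y) →
        wMean J t θ (fun g => (numCycles g : ℝ)) ≤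
          C * (L : ℝ) ^ d * ((Real.log t / t) ^ ((d : ℝ) / 2) * Real.log t)) ∧
      c * (L : ℝ) ^ d * t ^ (-((d : ℝ) / 2)) ≤
        stirExp (nnRate d L) t (fun g => (numCycles g : ℝ)) ∧
      (∀ J : (Fin d → ZMod L) → (Fin d → ZMod L) → ℝ, (∀ x y, nnRate d L x y ≤ J x y) →
        (∀ x y z, J (x + z) (y + z) = J x y) → ∀ (v : Fin d → ZMod L) (K : ℕ),
        wMean J t θ (fun g => if cycleLen g v ≤ K then 1 else 0) ≤
          C * K * ((Real.log t / t) ^ ((d : ℝ) / 2) * Real.log t)) := by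
  obtain ⟨C, hC, h⟩ := Pool.Agent.Y998.CN.cycles_bound Pool.Agent.Y664.CN.t_TR
    Pool.Agent.Y641.CN.t_PB Pool.Agent.Y154.CN.t_PR Pool.Agent.Y950.CN.t_PATH
    (Pool.Agent.Y259.CN.t_CG Pool.Agent.Y375.CN.EN.t_EN) d hd θ hθ
  refine ⟨C, (Real.exp (-10) / 2) ^ d, hC, by positivity, fun L _ hL t ht htL => ?_⟩
  have ht0 : 0 ≤ t := by linarith
  have hLpos : (0 : ℝ) < L := by exact_mod_cast Nat.pos_of_ne_zero (NeZero.ne L)
  have hN : (0 : ℝ) < (L : ℝ) ^ d := by positivity
  have hρ := Pool.Agent.Y998.CN.rho_eq d ht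
  have hρ0 := Pool.Agent.Y998.CN.rho_pos d ht
  have main : ∀ J : (Fin d → ZMod L) → (Fin d → ZMod L) → ℝ, (∀ x y, nnRate d L x y ≤ J x y) →
      Pool.Agent.Y998.CN.WN J t θ ≤
        C * (L : ℝ) ^ d * Pool.Agent.Y998.CN.rho d t * Pool.Agent.Y998.CN.WW J t θ := by
    intro J hJ
    refine h L (Fin d → ZMod L) (Pool.Agent.Y998.CN.phi d L) J
      (fun x y => le_trans (nn_nonneg x y) (hJ x y)) (fun v w k hvw => ?_) t ht htL
    exact le_trans (Pool.Agent.Y998.CN.nn_adj v w k hvw) (hJ v w)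
  refine ⟨fun J hJ => ?_, Pool.Agent.Y998.CN.num_ge hL ht htL, fun J hJ hJt v K => ?_⟩
  · have hJ0 : ∀ x y, 0 ≤ J x y := fun x y => le_trans (nn_nonneg x y) (hJ x y)
    have hW := Pool.Agent.Y998.CN.WW_pos hJ0 ht0 hθ
    have h1 := main J hJ
    rw [← hρ]
    exact (div_le_iff₀ hW).2 h1
  · have hJ0 : ∀ x y, 0 ≤ J x y := fun x y => le_trans (nn_nonneg x y) (hJ x y)
    have hW := Pool.Agent.Y998.CN.WW_pos hJ0 ht0 hθ
    have h1 := main J hJ
    rw [← hρ]
    refine (div_le_iff₀ hW).2 ?_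
    have h2 := Pool.Agent.Y998.CN.all_alike (Pool.Agent.Y998.CN.trans_torus J hJt) t θ K v
    have h3 : ∑ g, stirLaw J t g * θ ^ Pool.Agent.Y998.CN.numCycles g *
        (Nat.card {w : Fin d → ZMod L // cycleLen g w ≤ K} : ℝ) ≤
        K * Pool.Agent.Y998.CN.WN J t θ := by
      unfold Pool.Agent.Y998.CN.WN
      rw [Finset.mul_sum]
      refine Finset.sum_le_sum fun g _ => ?_
      have h4 := Pool.Agent.Y998.CN.short_le g K
      have h5 : 0 ≤ stirLaw J t g * θ ^ Pool.Agent.Y998.CN.numCycles g :=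
        mul_nonneg (law_nonneg hJ0 ht0 g) (by positivity)
      calc _ ≤ stirLaw J t g * θ ^ Pool.Agent.Y998.CN.numCycles g *
            (K * Pool.Agent.Y998.CN.numCycles g) := mul_le_mul_of_nonneg_left h4 h5
        _ = _ := by ring
    have hcard : (Fintype.card (Fin d → ZMod L) : ℝ) = (L : ℝ) ^ d := by
      rw [Fintype.card_fun, ZMod.card, Fintype.card_fin]; push_cast; rfl
    rw [hcard] at h2
    have hK : (0 : ℝ) ≤ K := by positivity
    have h6 : (L : ℝ) ^ d * ∑ g, stirLaw J t g * θ ^ Pool.Agent.Y998.CN.numCycles g *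
        (if cycleLen g v ≤ K then 1 else 0) ≤
        (L : ℝ) ^ d * (C * K * Pool.Agent.Y998.CN.rho d t * Pool.Agent.Y998.CN.WW J t θ) := by
      rw [h2]
      refine h3.trans ?_
      calc K * Pool.Agent.Y998.CN.WN J t θ ≤
            K * (C * (L : ℝ) ^ d * Pool.Agent.Y998.CN.rho d t * Pool.Agent.Y998.CN.WW J t θ) :=
            mul_le_mul_of_nonneg_left h1 hK
        _ = _ := by ring
    have h7 := le_of_mul_le_mul_left h6 hN
    refine le_trans (le_of_eq ?_) h7
    refine Finset.sum_congr rfl fun g _ => ?_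
    rfl

end Pool.Agent.Results.MP_6c3d62_pr.NumberOfCycles
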