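import Pool.Agent.Q220.SM.Wide

/-!
# Nearest neighbour stirring in dimension at least three: typical cycles are wide

In dimension `d ≥ 3` the cycle of a point of the torus `(ℤ / L)^d` at time `t ≥ 1` has diameter of
order at least `min(t^(d/4), L)`, and it is unlikely to lie in any given set of much fewer than
`min(t^(d/4), L)^d` points.
-/

set_option autoImplicit false

namespace Pool.Agent.Results.MP_6c3d62_pr.WideCycles

open Finset Equiv
open Pool.Agent.Y998.ST

open Classical in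
/-- sets -/
theorem main (d : ℕ) (hd : 3 ≤ d) : ∃ C : ℝ, 0 < C ∧ ∀ (L : ℕ) [NeZero L], 3 ≤ L →
    ∀ t : ℝ, 1 ≤ t → ∀ (v : Fin d → ZMod L) (B : Finset (Fin d → ZMod L)),
      stirExp (nnRate d L) t (fun g => if ∀ w, g.SameCycle v w → w ∈ B then 1 else 0) ≤
        C * ((B.card : ℝ) / min (t ^ ((d : ℝ) / 4)) (L : ℝ) ^ d) ^ (2 / ((d : ℝ) + 2)) := by
  obtain ⟨C₀, hC₀, hwalk⟩ := Pool.Agent.Y998.LQ.Walk.walk d hd
  have hD : (3 : ℝ) ≤ d := by exact_mod_cast hd
  refine ⟨1 + 3 ^ d + 2 * C₀, by positivity, fun L _ hL t ht v B => ?_⟩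
  have ht0 : 0 < t := by linarith
  have hL3 : (3 : ℝ) ≤ L := by exact_mod_cast hL
  have hL0 : (0 : ℝ) < L := by linarith
  obtain ⟨R, hR⟩ : ∃ R : ℝ, R = min (t ^ ((d : ℝ) / 4)) (L : ℝ) := ⟨_, rfl⟩
  have hR0 : 0 < R := by rw [hR]; exact lt_min (Real.rpow_pos_of_pos ht0 _) hL0
  have hRL : R ≤ L := by rw [hR]; exact min_le_right _ _
  rw [← hR]
  obtain ⟨q, hq⟩ : ∃ q : ℝ, q = (B.card : ℝ) / R ^ d := ⟨_, rfl⟩
  rw [← hq]
  have hq0 : 0 ≤ q := by rw [hq]; positivity
  have hJ0 : ∀ x y : Fin d → ZMod L, 0 ≤ nnRate d L x y := nn_nonneg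
  have hle1 : stirExp (nnRate d L) t (fun g => if ∀ w, g.SameCycle v w → w ∈ B then 1 else 0) ≤
      1 := by
    have h1 := exp_mono hJ0 ht0.le
      (F := fun g => if ∀ w, g.SameCycle v w → w ∈ B then (1 : ℝ) else 0) (G := fun _ => (1 : ℝ))
      (fun g => by beta_reduce; split_ifs <;> norm_num)
    rw [exp_const] at h1
    exact h1
  have hexp : 0 < 2 / ((d : ℝ) + 2) := by positivity
  rcases le_or_gt 1 q with h1q | h1q
  · refine hle1.trans ?_
    have h1 := Real.one_le_rpow h1q hexp.le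
    have h2 : (0 : ℝ) < 3 ^ d := by positivity
    nlinarith
  rcases hq0.eq_or_lt with h0q | h0q
  · -- the empty set
    have hB : B.card = 0 := by
      by_contra hB
      have h1 : (0 : ℝ) < B.card := by exact_mod_cast Nat.pos_of_ne_zero hB
      have h2 : 0 < q := by rw [hq]; positivity
      exact h2.ne' h0q.symm
    rw [Finset.card_eq_zero] at hB
    have h1 : stirExp (nnRate d L) t
        (fun g => if ∀ w, g.SameCycle v w → w ∈ B then 1 else 0) = 0 := by
      unfold stirExp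
      refine Finset.sum_eq_zero fun g _ => ?_
      beta_reduce
      rw [if_neg, mul_zero]
      intro h
      have := h v (Perm.SameCycle.refl g v)
      rw [hB] at this
      exact absurd this (Finset.notMem_empty _)
    rw [h1]
    positivity
  obtain ⟨κ, hκ⟩ : ∃ κ : ℝ, κ = q ^ (2 / ((d : ℝ) + 2)) := ⟨_, rfl⟩
  rw [← hκ]
  have hκ0 : 0 < κ := by rw [hκ]; exact Real.rpow_pos_of_pos h0q _
  have hκ1 : κ ≤ 1 := by rw [hκ]; exact Real.rpow_le_one hq0 h1q.le hexp.le
  -- the heat kernel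
  have heat : ∀ s : ℝ, κ / 2 * R ^ 2 ≤ s → ∀ b, qq (nnRate d L) s v b ≤
      (3 / (Real.sqrt κ * R)) ^ d := by
    intro s hs b
    have hs0 : 0 < s := lt_of_lt_of_le (by positivity) hs
    refine (qq_torus hL hs0 v b).trans (pow_le_pow_left₀ (by positivity) ?_ d)
    have hsk : 0 < Real.sqrt κ := Real.sqrt_pos.2 hκ0
    have hsk1 : Real.sqrt κ ≤ 1 := by
      rw [Real.sqrt_le_left (by norm_num)]
      linarith
    have h1 : 1 / (L : ℝ) ≤ 1 / (Real.sqrt κ * R) := by
      refine one_div_le_one_div_of_le (by positivity) ?_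
      nlinarith
    have h2 : Real.sqrt κ * R / 2 ≤ Real.sqrt s := by
      refine Real.le_sqrt_of_sq_le (le_trans ?_ hs)
      have h3 : (Real.sqrt κ * R / 2) ^ 2 = κ / 4 * R ^ 2 := by
        rw [div_pow, mul_pow, Real.sq_sqrt hκ0.le]
        ring
      rw [h3]
      have h4 : 0 ≤ κ * R ^ 2 := by positivity
      linarith
    have h3 : 1 / Real.sqrt s ≤ 2 / (Real.sqrt κ * R) := by
      have h4 : (0 : ℝ) < Real.sqrt κ * R / 2 := by positivity
      calc 1 / Real.sqrt s ≤ 1 / (Real.sqrt κ * R / 2) := one_div_le_one_div_of_le h4 h2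
        _ = _ := by field_simp
    calc 1 / (L : ℝ) + 1 / Real.sqrt s ≤ 1 / (Real.sqrt κ * R) + 2 / (Real.sqrt κ * R) :=
          add_le_add h1 h3
      _ = _ := by ring
  have hsumB : ∀ s : ℝ, κ / 2 * R ^ 2 ≤ s → ∑ b ∈ B, qq (nnRate d L) s v b ≤ 3 ^ d * κ := by
    intro s hs
    refine (Finset.sum_le_card_nsmul B _ _ fun b _ => heat s hs b).trans (le_of_eq ?_)
    rw [nsmul_eq_mul, div_pow, mul_pow]
    have hsk : 0 < Real.sqrt κ := Real.sqrt_pos.2 hκ0
    have h1 : (B.card : ℝ) = q * R ^ d := by rw [hq]; field_simp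
    rw [h1]
    have h2 : q * R ^ d * (3 ^ d / (Real.sqrt κ ^ d * R ^ d)) = 3 ^ d * (q / Real.sqrt κ ^ d) := by
      field_simp
    rw [h2]
    congr 1
    rw [div_eq_iff (by positivity), Real.sqrt_eq_rpow, ← Real.rpow_natCast, ← Real.rpow_mul hκ0.le]
    have h3 : κ * κ ^ (1 / 2 * (d : ℝ)) = κ ^ (1 + 1 / 2 * (d : ℝ)) := by
      rw [Real.rpow_add hκ0, Real.rpow_one]
    rw [h3, hκ, ← Real.rpow_mul hq0]
    have h4 : 2 / ((d : ℝ) + 2) * (1 + 1 / 2 * (d : ℝ)) = 1 := by field_simp; ring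
    rw [h4, Real.rpow_one]
  rcases Q220.SM.Wide.choice d hd L t κ (by linarith) ht hκ0 hκ1 with ⟨K, hK, h1, h2⟩ | h2
  · rw [← hR] at h2
    refine (Q220.SM.Wide.in_le hJ0 ht0.le K v B).trans ?_
    refine (Q220.SM.Wide.end_le hJ0 nn_symm (nn_diag hL) ht0.le K hK v B).trans ?_
    have h3 : ∑ y : Fin K → Fin d → ZMod L, |UU (nnRate d L) K t (pre v y) y -
        VV (nnRate d L) K t (pre v y) y| ≤
        C₀ * (K * t ^ (1 - (d : ℝ) / 2) + (K : ℝ) ^ 2 * t / (L : ℝ) ^ d) := by
      refine le_trans (le_of_eq (Finset.sum_congr rfl fun y _ => ?_)) (hwalk L hL t ht K v).2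
      have e1 : stirExp (nnRate d L) t (fun g => if ∀ i : Fin K,
          (g ^ ((i : ℕ) + 1)) v = y i then 1 else 0) = UU (nnRate d L) K t (pre v y) y := by
        unfold UU
        simp only [act_pre]
      rw [e1]
      rfl
    have h4 := hsumB _ h2
    have h5 := mul_le_mul_of_nonneg_left h1 hC₀.le
    nlinarith
  · rw [← hR] at h2
    refine (Q220.SM.Wide.in_le hJ0 ht0.le 1 v B).trans ?_
    have h3 : stirExp (nnRate d L) t (fun g => if (g ^ 1) v ∈ B then 1 else 0) =
        ∑ b ∈ B, qq (nnRate d L) t v b := by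
      unfold qq
      have h4 := exp_sum (nnRate d L) t B (fun b g => if g v = b then (1 : ℝ) else 0)
      refine Eq.trans ?_ h4.symm
      congr 1
      funext g
      rw [pow_one, Finset.sum_ite_eq]
    rw [h3]
    have h4 := hsumB t h2
    nlinarith

open Classical in
/-- Nearest neighbour random stirring on the torus `(ℤ / L)^d`, `d ≥ 3`, started at the identity.
There is `C`, depending only on `d`, such that for all `L ≥ 3`, `t ≥ 1` and all points `v`, with
`R = min(t^(d/4), L)`: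

(1) for every set `B`, the cycle of `v` is contained in `B` with probability at most
`C (|B| / R^d)^(2/(d+2))`;

(2) for every `r ≥ 1`, all points of the cycle of `v` have distance at most `r` from `v` (in the
supremum norm on the torus) with probability at most `C (r / R)^(2d/(d+2))`. -/
theorem result (d : ℕ) (hd : 3 ≤ d) : ∃ C : ℝ, 0 < C ∧ ∀ (L : ℕ) [NeZero L], 3 ≤ L →
    ∀ t : ℝ, 1 ≤ t → ∀ v : Fin d → ZMod L,
      (∀ B : Finset (Fin d → ZMod L),
        stirExp (nnRate d L) t (fun g => if ∀ w, g.SameCycle v w → w ∈ B then 1 else 0) ≤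
          C * ((B.card : ℝ) / min (t ^ ((d : ℝ) / 4)) (L : ℝ) ^ d) ^ (2 / ((d : ℝ) + 2))) ∧
      ∀ r : ℕ, 1 ≤ r → stirExp (nnRate d L) t (fun g =>
          if ∀ w, g.SameCycle v w → ∀ i, (w i - v i).valMinAbs.natAbs ≤ r then 1 else 0) ≤
        C * ((r : ℝ) / min (t ^ ((d : ℝ) / 4)) (L : ℝ)) ^ (2 * (d : ℝ) / ((d : ℝ) + 2)) := by
  obtain ⟨C, hC, h⟩ := main d hd
  have hD : (3 : ℝ) ≤ d := by exact_mod_cast hd
  refine ⟨C * 3 ^ d, by positivity, fun L _ hL t ht v => ⟨fun B => ?_, fun r hr => ?_⟩⟩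
  · refine (h L hL t ht v B).trans ?_
    have ht0 : 0 < t := by linarith
    have hL0 : (0 : ℝ) < L := by
      have : (3 : ℝ) ≤ L := by exact_mod_cast hL
      linarith
    have hR0 : 0 < min (t ^ ((d : ℝ) / 4)) (L : ℝ) := lt_min (Real.rpow_pos_of_pos ht0 _) hL0
    have h1 : (0 : ℝ) ≤ ((B.card : ℝ) / min (t ^ ((d : ℝ) / 4)) (L : ℝ) ^ d) ^
      (2 / ((d : ℝ) + 2)) := by positivity
    have h2 : (1 : ℝ) ≤ 3 ^ d := one_le_pow₀ (by norm_num)
    have h3 := mul_nonneg hC.le h1
    nlinarith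
  · have ht0 : 0 < t := by linarith
    have hL0 : (0 : ℝ) < L := by
      have : (3 : ℝ) ≤ L := by exact_mod_cast hL
      linarith
    obtain ⟨R, hR⟩ : ∃ R : ℝ, R = min (t ^ ((d : ℝ) / 4)) (L : ℝ) := ⟨_, rfl⟩
    have hR0 : 0 < R := by rw [hR]; exact lt_min (Real.rpow_pos_of_pos ht0 _) hL0
    obtain ⟨B, hB⟩ : ∃ B : Finset (Fin d → ZMod L), B = Fintype.piFinset (fun i =>
      Finset.univ.filter fun x : ZMod L => (x - v i).valMinAbs.natAbs ≤ r) := ⟨_, rfl⟩
    have hBm : ∀ w : Fin d → ZMod L, w ∈ B ↔ ∀ i, (w i - v i).valMinAbs.natAbs ≤ r := by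
      intro w
      rw [hB, Fintype.mem_piFinset]
      simp
    have hcard : (B.card : ℝ) ≤ (3 * (r : ℝ)) ^ d := by
      have h1 : B.card ≤ (2 * r + 1) ^ d := by
        rw [hB, Fintype.card_piFinset]
        calc _ ≤ ∏ _i : Fin d, (2 * r + 1) := by
              refine Finset.prod_le_prod' fun i _ => ?_
              have h2 : ((Finset.Icc (-(r : ℤ)) r).card) = 2 * r + 1 := by
                rw [Int.card_Icc]
                omega
              rw [← h2]
              refine Finset.card_le_card_of_injOn (fun x : ZMod L => (x - v i).valMinAbs)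
                (fun x hx => ?_) ?_
              · simp only [Finset.coe_filter, Finset.mem_univ, true_and, Set.mem_ofPred_eq] at hx
                simp only [Finset.coe_Icc, Set.mem_Icc]
                omega
              · intro x _ y _ hxy
                have h3 : x - v i = y - v i := ZMod.injective_valMinAbs hxy
                exact sub_left_inj.1 h3
          _ = _ := by rw [Finset.prod_const, Finset.card_univ, Fintype.card_fin]
      have h2 : ((2 * r + 1 : ℕ) : ℝ) ≤ 3 * r := by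
        have : (1 : ℝ) ≤ r := by exact_mod_cast hr
        push_cast
        linarith
      calc (B.card : ℝ) ≤ ((2 * r + 1 : ℕ) : ℝ) ^ d := by exact_mod_cast h1
        _ ≤ _ := pow_le_pow_left₀ (by positivity) h2 d
    have h1 := h L hL t ht v B
    have h2 : ∀ g : Perm (Fin d → ZMod L), (∀ w, g.SameCycle v w → w ∈ B) ↔
        ∀ w, g.SameCycle v w → ∀ i, (w i - v i).valMinAbs.natAbs ≤ r := by
      intro g
      simp only [hBm]
    simp only [h2] at h1
    refine h1.trans ?_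
    rw [← hR, mul_assoc]
    refine mul_le_mul_of_nonneg_left ?_ hC.le
    have hr0 : (0 : ℝ) < r := by exact_mod_cast hr
    have h3 : (B.card : ℝ) / R ^ d ≤ (3 * ((r : ℝ) / R)) ^ d := by
      have h4 : (3 * ((r : ℝ) / R)) ^ d = (3 * (r : ℝ)) ^ d / R ^ d := by
        rw [← mul_div_assoc, div_pow]
      rw [h4]
      exact div_le_div_of_nonneg_right hcard (by positivity)
    have h4 := Real.rpow_le_rpow (by positivity) h3 (by positivity : 0 ≤ 2 / ((d : ℝ) + 2))
    refine h4.trans ?_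
    have hx : 0 < (r : ℝ) / R := by positivity
    rw [← Real.rpow_natCast, ← Real.rpow_mul (by positivity), Real.mul_rpow (by norm_num) hx.le]
    have h5 : (d : ℝ) * (2 / ((d : ℝ) + 2)) = 2 * (d : ℝ) / ((d : ℝ) + 2) := by ring
    rw [h5]
    refine mul_le_mul_of_nonneg_right ?_ (Real.rpow_nonneg hx.le _)
    have h6 : 2 * (d : ℝ) / ((d : ℝ) + 2) ≤ d := by
      rw [div_le_iff₀ (by linarith)]
      nlinarith
    calc (3 : ℝ) ^ (2 * (d : ℝ) / ((d : ℝ) + 2)) ≤ (3 : ℝ) ^ (d : ℝ) :=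
          Real.rpow_le_rpow_of_exponent_le (by norm_num) h6
      _ = 3 ^ d := Real.rpow_natCast 3 d

end Pool.Agent.Results.MP_6c3d62_pr.WideCycles
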